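import Pool.Agent.H83.CM.Asmh

/-!
# Finite simple groups are not characterized by their Cartan matrices in characteristic 2

The simple group `PSL(2,967)`, of order `452115048`, and a group `11^{3+3} : PSL(2,7)`, of order
`11 ^ 6 * 168 = 297622248`, have the same Cartan matrix over every algebraically closed field of
characteristic `2`.
-/

set_option autoImplicit false
open scoped Matrix MatrixGroups
universe u

namespace Pool.Agent.Results.MP_bea28b_al.SameCartanMatrix

open _root_.CM

lemma Cm_diag {α β : Type} [DecidableEq α] [DecidableEq β] (i j : Fin 3 ⊕ α ⊕ β) (h : i ≠ j) :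
    Cm α β i i ≠ Cm α β i j := by
  rcases i with i | i | i <;> rcases j with j | j | j
  · change C3 i i ≠ C3 i j
    have h' : i ≠ j := fun e => h (by rw [e])
    clear h
    fin_cases i <;> fin_cases j <;> first | exact absurd rfl h' | (unfold C3; simp)
  · change C3 i i ≠ 0
    clear h
    fin_cases i <;> (unfold C3; simp)
  · change C3 i i ≠ 0
    clear h
    fin_cases i <;> (unfold C3; simp)
  · change (if i = i then 4 else 0) ≠ 0
    rw [if_pos rfl]
    decide
  · change (if i = i then 4 else 0) ≠ if i = j then 4 else 0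
    have h' : i ≠ j := fun e => h (by rw [e])
    rw [if_pos rfl, if_neg h']
    decide
  · change (if i = i then 4 else 0) ≠ 0
    rw [if_pos rfl]
    decide
  · change (if i = i then 1 else 0) ≠ 0
    rw [if_pos rfl]
    decide
  · change (if i = i then 1 else 0) ≠ 0
    rw [if_pos rfl]
    decide
  · change (if i = i then 1 else 0) ≠ if i = j then 1 else 0
    have h' : i ≠ j := fun e => h (by rw [e])
    rw [if_pos rfl, if_neg h']
    decide

instance : Fact (Nat.Prime 967) := ⟨by norm_num⟩
instance : Fact (Nat.Prime 7) := ⟨by norm_num⟩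

lemma exists_second : ∃ (H : Type) (_ : Group H) (_ : Finite H), Nat.card H = 11 ^ 6 * 168 ∧
    ∀ (k : Type u) [Field k] [IsAlgClosed k] [CharP k 2],
      IdemCartan k (MonoidAlgebra k H) (Cm (Fin 60) (Fin 241)) := by
  obtain ⟨ρ, h1, h2⟩ := ORB
  obtain ⟨D⟩ := COMB ρ h1 h2
  obtain ⟨B⟩ := PSLB 7 (by norm_num)
  have hfin : Finite PSL(2, ZMod 7) := BN_finite B
  have hcard : Nat.card PSL(2, ZMod 7) = 168 := by
    have h := BN_card (q := 7) (by norm_num) B
    omega
  refine ⟨NN ⋊[actN.comp ρ] PSL(2, ZMod 7), inferInstance,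
    Finite.of_equiv _ SemidirectProduct.equivProd.symm, ?_, ?_⟩
  · rw [Nat.card_congr SemidirectProduct.equivProd, Nat.card_prod, hcard,
      Pool.Agent.H83.Blk.card_NN]
  · intro k _ _ _
    obtain ⟨ψ, hψ⟩ := Pool.Agent.H83.Blk.exists_psi k
    have hB := Pool.Agent.H83.Blk.blocks ψ ρ hψ
    have hG : IdemCartan k (MonoidAlgebra k PSL(2, ZMod 7)) (Cm (Fin 0) (Fin 1)) :=
      ASMG 7 1 (by decide) (by norm_num) k
    have h3 := Pool.Agent.H83.Asmh.ASMH hB (Sum.inl 0) rfl (fun x => by
      change MonoidAlgebra.single x 1 * Pool.Agent.H83.Idm.idm _ _ = _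
      rw [Pool.Agent.H83.Idm.single_idm (Pool.Agent.H83.Blk.Ch_A ψ 0)
        (Pool.Agent.H83.Blk.mem_Us x)]
      have : Pool.Agent.H83.Blk.chA ψ 0 x = 1 := by
        unfold Pool.Agent.H83.Blk.chA
        rw [zero_dotProduct, AddChar.map_zero_eq_one]
      rw [this, one_smul]
      rfl) (fun g => by
        change Sum.inl (dualAct (ρ g) 0) = Sum.inl 0
        rw [dualAct_apply, Matrix.mulVec_zero]) D hG
    refine Pool.Agent.H83.Asmh.reindex (Fintype.equivFinOfCardEq ?_) h3
    simp

/-- The simple group `PSL(2,967)` is not characterized by its Cartan matrix in characteristic `2`: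
there is a finite group `H` of a different order, `11 ^ 6 * 168`, such that `PSL(2,967)` and `H` have
the same Cartan matrix over every algebraically closed field of characteristic `2`. -/
theorem result :
    IsSimpleGroup PSL(2, ZMod 967) ∧ Finite PSL(2, ZMod 967) ∧
    (∃ x y : PSL(2, ZMod 967), x * y ≠ y * x) ∧
    ∃ (H : Type) (_ : Group H) (_ : Finite H), Nat.card H = 11 ^ 6 * 168 ∧
      ¬ Nonempty (PSL(2, ZMod 967) ≃* H) ∧
      ∃ (ι : Type) (_ : Fintype ι) (C : Matrix ι ι ℕ),
        ∀ (k : Type u) [Field k] [IsAlgClosed k] [CharP k 2],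
          IsCartan (MonoidAlgebra k PSL(2, ZMod 967)) C ∧ IsCartan (MonoidAlgebra k H) C := by
  obtain ⟨D⟩ := PSLB 967 (by norm_num)
  have hfin : Finite PSL(2, ZMod 967) := BN_finite D
  have hcard := BN_card (q := 967) (by norm_num) D
  refine ⟨Matrix.ProjectiveSpecialLinearGroup.rank_two_simple (by
    rw [Nat.card_zmod]; norm_num), hfin, ?_, ?_⟩
  · have h4 : (2 : ZMod 967) ≠ 0 := by decide
    refine ⟨D.d (Units.mk0 2 h4), D.n 1, fun h => ?_⟩
    rw [D.dn] at h
    have h5 := (D.inj1 _ _ _ _ h).1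
    rw [Units.val_mk0] at h5
    exact absurd h5 (by decide)
  · obtain ⟨H, hH1, hH2, hHc, hH⟩ := exists_second.{u}
    refine ⟨H, hH1, hH2, hHc, ?_, Fin 3 ⊕ Fin 60 ⊕ Fin 241, inferInstance,
      Cm (Fin 60) (Fin 241), ?_⟩
    · rintro ⟨e⟩
      have h6 := Nat.card_congr e.toEquiv
      rw [hHc] at h6
      omega
    · intro k _ _ _
      have hfd : FiniteDimensional k (MonoidAlgebra k PSL(2, ZMod 967)) := inferInstance
      have hfd' : FiniteDimensional k (MonoidAlgebra k H) := inferInstance
      exact ⟨CAR Cm_diag (ASMG 967 121 (by decide) (by norm_num) k), CAR Cm_diag (hH k)⟩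

end Pool.Agent.Results.MP_bea28b_al.SameCartanMatrix
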